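import Mathlib
import Pool.Agent.X331.RS.Ineq
set_option autoImplicit false

/-!
# The restriction conjecture for spheres over finite fields is false

The conjecture says that the necessary conditions `(1/p, 1/r) ∈ Ω_d(y₀)` for `R(p → r) ≲ 1`, coming
from affine subspaces of the sphere `S_j^{d-1} ⊂ F_q^d`, are sufficient. We show that it fails in
every dimension `d ≥ 4`, in each of the cases (1), (2), (4) (that is, whenever the maximal affine
subspaces of the sphere have less than `q^{(d-1)/2}` points), at the vertex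
`((d+1)/(2d), y₀)` of `Ω_d(y₀)` and near it.

Let `q ≡ 1 mod 4`, `i² = -1`, let `V` be the span of `e_{2l-1} + i e_{2l}`, `l ≤ k`, a totally
isotropic subspace, and `2k + 2 ≤ d`. The set `E = S_j ∩ V^⊥` is invariant under translations by
`V`, so `g(m) = ∑_{x ∈ E} χ(m·x)` vanishes off `V^⊥`, a set of only `q^{d-k}` points, while
`ĝ = q^d 1_E`. By Plancherel and Hölder `‖g‖_p` is so small (for `p < 2`) that
`R(p → r) ≥ q^{(d+1)/2 - (d-k)/p - k/r} / 3` for `1 ≤ p, r ≤ 2`. The new necessary condition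
`(d-k)/p + k/r ≥ (d+1)/2` is violated at the vertex.
-/

namespace Pool.Agent.Results.MP_3d9c98_an.SphereConjectureFalse

open Finset
open scoped ENNReal

section
variable {F : Type} [Field F] [Fintype F]

/-- `ĝ(x) = ∑_{m ∈ F^d} χ(-m·x) g(m)` -/
noncomputable def hat {d : ℕ} (χ : AddChar F ℂ) (g : (Fin d → F) → ℂ) (x : Fin d → F) : ℂ :=
  ∑ m : Fin d → F, χ (-∑ l, m l * x l) * g m

/-- the sphere `S_j^{d-1} = {x ∈ F^d : x₁² + ... + x_d² = j}` -/
def sphere [DecidableEq F] (d : ℕ) (j : F) : Finset (Fin d → F) :=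
  Finset.univ.filter fun x => ∑ l, x l ^ 2 = j

/-- the norm of `f` in `L^r(S_j^{d-1})`, normalised counting measure -/
noncomputable def sphereNorm [DecidableEq F] {d : ℕ} (j : F) (r : ℝ≥0∞)
    (f : (Fin d → F) → ℂ) : ℝ :=
  if r = ∞ then ⨆ x : {x // x ∈ sphere d j}, ‖f x‖
  else ((∑ x ∈ sphere d j, ‖f x‖ ^ r.toReal) / (#(sphere d j) : ℝ)) ^ (1 / r.toReal)

/-- the norm of `g` in `ℓ^p(F^d)`, counting measure -/
noncomputable def ellNorm {d : ℕ} (p : ℝ≥0∞) (g : (Fin d → F) → ℂ) : ℝ :=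
  if p = ∞ then ⨆ m, ‖g m‖ else (∑ m : Fin d → F, ‖g m‖ ^ p.toReal) ^ (1 / p.toReal)

/-- `R_{S_j^{d-1}}(p → r) ≤ C`, that is `‖ĝ‖_{L^r(S)} ≤ C ‖g‖_{ℓ^p}` for all `g` -/
def RestrictionLE [DecidableEq F] (d : ℕ) (χ : AddChar F ℂ) (j : F) (p r : ℝ≥0∞) (C : ℝ) : Prop :=
  ∀ g : (Fin d → F) → ℂ, sphereNorm j r (hat χ g) ≤ C * ellNorm p g

end

/-- the five cases -/
inductive SphereCase | one | two | three | four | five

/-- `j ∈ F^*` and the dimension `d` belong to the given case (`η` is the quadratic character) -/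
def InCase (c : SphereCase) (d : ℕ) {F : Type} [Field F] [Fintype F] [DecidableEq F] (j : F) :
    Prop :=
  match c with
  | .one => Even d
  | .two => d % 4 = 1 ∧ quadraticChar F j = -1
  | .three => d % 4 = 1 ∧ quadraticChar F j = 1
  | .four => d % 4 = 3 ∧ quadraticChar F (-j) = -1
  | .five => d % 4 = 3 ∧ quadraticChar F (-j) = 1

/-- the number `y₀` -/
noncomputable def y₀ (c : SphereCase) (d : ℕ) : ℝ :=
  match c with
  | .one => ((d : ℝ) ^ 2 + d - 2) / (2 * d ^ 2)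
  | .two => ((d : ℝ) ^ 2 + 2 * d - 3) / (2 * d ^ 2 + 2 * d)
  | .three => ((d : ℝ) + 1) / (2 * d)
  | .four => ((d : ℝ) ^ 2 + 2 * d - 3) / (2 * d ^ 2 + 2 * d)
  | .five => ((d : ℝ) + 1) / (2 * d)

/-- `Ω_d(y)`: the closed convex hull of `(1,0)`, `(1,1)`, `((d+1)/(2d), 1)`, `((d+1)/(2d), y)` -/
def Omega (d : ℕ) (y : ℝ) : Set (ℝ × ℝ) :=
  closure (convexHull ℝ {((1 : ℝ), (0 : ℝ)), (1, 1), (((d : ℝ) + 1) / (2 * d), 1),
    (((d : ℝ) + 1) / (2 * d), y)})

/-- `R_{S_j^{d-1}}(p → r) ≲ 1` in the given case: the constants are bounded uniformly over all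
finite fields of odd order and all `j ≠ 0` in this case; `X` chooses the character of each field -/
def Bounded (X : ∀ (F : Type) [Field F] [Fintype F], AddChar F ℂ) (c : SphereCase) (d : ℕ)
    (p r : ℝ≥0∞) : Prop :=
  ∃ C : ℝ, ∀ (F : Type) [Field F] [Fintype F] [DecidableEq F], Odd (Fintype.card F) →
    ∀ j : F, j ≠ 0 → InCase c d j → RestrictionLE d (X F) j p r C

/-- the assertion of Q1, for the choice `X` of the characters -/
def Q1 (X : ∀ (F : Type) [Field F] [Fintype F], AddChar F ℂ) : Prop :=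
  ∀ d : ℕ, 2 ≤ d → ∀ c : SphereCase, ∀ p r : ℝ≥0∞, 1 ≤ p → 1 ≤ r →
    (p⁻¹.toReal, r⁻¹.toReal) ∈ Omega d (y₀ c d) → Bounded X c d p r

/-- The lower bound. -/
theorem lowerBound {F : Type} [Field F] [Fintype F] [DecidableEq F] (hF : Fintype.card F % 4 = 1)
    (χ : AddChar F ℂ) (hχ : χ ≠ 1) (j : F) (d k : ℕ) (hk : 2 * k + 2 ≤ d) (p r C : ℝ)
    (hp1 : 1 ≤ p) (hp2 : p ≤ 2) (hr1 : 1 ≤ r) (hr2 : r ≤ 2)
    (h : RestrictionLE d χ j (ENNReal.ofReal p) (ENNReal.ofReal r) C) :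
    (Fintype.card F : ℝ) ^ (((d : ℝ) + 1) / 2 - ((d : ℝ) - k) / p - k / r) ≤ 3 * C := by
  obtain ⟨n, rfl⟩ := Nat.exists_eq_add_of_le hk
  have hsq : IsSquare (-1 : F) := by
    rw [FiniteField.isSquare_neg_one_iff]
    omega
  obtain ⟨i, hi⟩ := hsq
  have hchar : ringChar F ≠ 2 := by
    intro h2
    have := FiniteField.even_card_iff_char_two.mp h2
    omega
  have h2 : (2 : F) ≠ 0 := Ring.two_ne_zero hchar
  refine Pool.Agent.X331.RS.lower_fin k n χ hχ j (by rw [sq, ← hi]) h2 rfl hp1 hp2 hr1 hr2 ?_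
  intro g
  have := h g
  unfold sphereNorm ellNorm at this
  rw [if_neg ENNReal.ofReal_ne_top, if_neg ENNReal.ofReal_ne_top,
    ENNReal.toReal_ofReal (by linarith), ENNReal.toReal_ofReal (by linarith)] at this
  exact this

/-- For all `C` there are suitable fields and `j`. -/
lemma exists_field (N : ℕ) : ∃ (F : Type) (_ : Field F) (_ : Fintype F) (_ : DecidableEq F),
    N < Fintype.card F ∧ Fintype.card F % 4 = 1 ∧
      ∃ j : F, quadraticChar F j = -1 ∧ quadraticChar F (-j) = -1 := by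
  obtain ⟨p, hp, hpN, hp4⟩ := Nat.exists_prime_gt_modEq_one (k := 4) N (by norm_num)
  have : Fact p.Prime := ⟨hp⟩
  have hmod : p % 4 = 1 := by
    have := hp4
    unfold Nat.ModEq at this
    omega
  have hcard : Fintype.card (ZMod p) = p := ZMod.card p
  have hchar : ringChar (ZMod p) ≠ 2 := by
    rw [ZMod.ringChar_zmod_n]
    rintro rfl
    omega
  obtain ⟨j, hj⟩ := FiniteField.exists_nonsquare hchar
  have h1 : quadraticChar (ZMod p) j = -1 := quadraticChar_neg_one_iff_not_isSquare.mpr hj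
  refine ⟨ZMod p, inferInstance, inferInstance, inferInstance, by rw [hcard]; exact hpN,
    by rw [hcard]; exact hmod, j, h1, ?_⟩
  have hneg : quadraticChar (ZMod p) (-1) = 1 := by
    rw [quadraticChar_one_iff_isSquare (by simp)]
    rw [FiniteField.isSquare_neg_one_iff, hcard]
    omega
  rw [← neg_one_mul, map_mul, hneg, h1]
  norm_num

theorem result :
    -- Q1 is false, whatever non-trivial characters are used
    (∀ X : ∀ (F : Type) [Field F] [Fintype F], AddChar F ℂ,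
      (∀ (F : Type) [Field F] [Fintype F], X F ≠ 1) →
      ¬ Q1 X ∧
      -- it fails in each of the cases (1), (2), (4) in every dimension `d ≥ 4`
      ∀ (d : ℕ) (c : SphereCase), 4 ≤ d →
        ((c = .one ∧ Even d) ∨ (c = .two ∧ d % 4 = 1) ∨ (c = .four ∧ d % 4 = 3)) →
        ∃ p r : ℝ≥0∞, 1 ≤ p ∧ 1 ≤ r ∧ p⁻¹.toReal = ((d : ℝ) + 1) / (2 * d) ∧
          r⁻¹.toReal = y₀ c d ∧ (p⁻¹.toReal, r⁻¹.toReal) ∈ Omega d (y₀ c d) ∧
          ¬ Bounded X c d p r) ∧
    -- the necessary condition which causes this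
    (∀ (F : Type) [Field F] [Fintype F] [DecidableEq F], Fintype.card F % 4 = 1 →
      ∀ χ : AddChar F ℂ, χ ≠ 1 → ∀ (j : F) (d k : ℕ), 2 * k + 2 ≤ d → ∀ p r C : ℝ,
      1 ≤ p → p ≤ 2 → 1 ≤ r → r ≤ 2 →
      RestrictionLE d χ j (ENNReal.ofReal p) (ENNReal.ofReal r) C →
      (Fintype.card F : ℝ) ^ (((d : ℝ) + 1) / 2 - ((d : ℝ) - k) / p - k / r) ≤ 3 * C) := by
  have main : ∀ X : ∀ (F : Type) [Field F] [Fintype F], AddChar F ℂ,
      (∀ (F : Type) [Field F] [Fintype F], X F ≠ 1) →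
      ∀ (d : ℕ) (c : SphereCase), 4 ≤ d →
        ((c = .one ∧ Even d) ∨ (c = .two ∧ d % 4 = 1) ∨ (c = .four ∧ d % 4 = 3)) →
        ∃ p r : ℝ≥0∞, 1 ≤ p ∧ 1 ≤ r ∧ p⁻¹.toReal = ((d : ℝ) + 1) / (2 * d) ∧
          r⁻¹.toReal = y₀ c d ∧ (p⁻¹.toReal, r⁻¹.toReal) ∈ Omega d (y₀ c d) ∧
          ¬ Bounded X c d p r := by
    intro X hX d c hd hc
    have hd4 : (4 : ℝ) ≤ d := by exact_mod_cast hd
    have hd0 : (0 : ℝ) < d := by linarith
    -- the numbers
    have hy1 : 1 / 2 ≤ y₀ c d := by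
      rcases hc with ⟨rfl, _⟩ | ⟨rfl, _⟩ | ⟨rfl, _⟩
      all_goals
        unfold y₀
        rw [div_le_div_iff₀ (by norm_num) (by positivity)]
        nlinarith
    have hy2 : y₀ c d < ((d : ℝ) + 1) / (2 * d) := by
      rcases hc with ⟨rfl, _⟩ | ⟨rfl, _⟩ | ⟨rfl, _⟩
      all_goals
        unfold y₀
        rw [div_lt_div_iff₀ (by positivity) (by positivity)]
        nlinarith
    have hy3 : ((d : ℝ) + 1) / (2 * d) ≤ 1 := by
      rw [div_le_one (by positivity)]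
      linarith
    have hy0 : 0 < y₀ c d := by linarith
    have hx1 : (1 : ℝ) / 2 ≤ ((d : ℝ) + 1) / (2 * d) := by linarith
    have hx0 : 0 < ((d : ℝ) + 1) / (2 * d) := by positivity
    set x : ℝ := ((d : ℝ) + 1) / (2 * d) with hx
    set y : ℝ := y₀ c d with hy
    have hxinv : 1 ≤ x⁻¹ := (one_le_inv₀ hx0).mpr hy3
    have hyinv : 1 ≤ y⁻¹ := (one_le_inv₀ hy0).mpr (by linarith)
    have hxinv2 : x⁻¹ ≤ 2 := by
      rw [inv_le_comm₀ hx0 (by norm_num)]
      linarith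
    have hyinv2 : y⁻¹ ≤ 2 := by
      rw [inv_le_comm₀ hy0 (by norm_num)]
      linarith
    have e1 : (ENNReal.ofReal x⁻¹)⁻¹.toReal = x := by
      rw [ENNReal.toReal_inv, ENNReal.toReal_ofReal (by positivity), inv_inv]
    have e2 : (ENNReal.ofReal y⁻¹)⁻¹.toReal = y := by
      rw [ENNReal.toReal_inv, ENNReal.toReal_ofReal (by positivity), inv_inv]
    refine ⟨ENNReal.ofReal x⁻¹, ENNReal.ofReal y⁻¹, ?_, ?_, e1, e2, ?_, ?_⟩
    · rw [ENNReal.one_le_ofReal]
      exact hxinv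
    · rw [ENNReal.one_le_ofReal]
      exact hyinv
    · rw [e1, e2]
      apply subset_closure
      apply subset_convexHull
      simp [hx]
    · rintro ⟨C, hC⟩
      -- the exponent
      set δ : ℝ := x - y with hδ
      have hδ0 : 0 < δ := by linarith
      obtain ⟨M, hM⟩ : ∃ M : ℕ, 3 * |C| + 1 < (M : ℝ) ^ δ := by
        have := (tendsto_rpow_atTop hδ0).comp tendsto_natCast_atTop_atTop
        exact (this.eventually_gt_atTop (3 * |C| + 1)).exists
      obtain ⟨F, _, _, _, hcard, hmod, j, hj1, hj2⟩ := exists_field M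
      have hj0 : j ≠ 0 := by
        rintro rfl
        simp at hj1
      have hodd : Odd (Fintype.card F) := by
        rw [Nat.odd_iff]
        omega
      have hcase : InCase c d j := by
        rcases hc with ⟨rfl, h⟩ | ⟨rfl, h⟩ | ⟨rfl, h⟩
        · exact h
        · exact ⟨h, hj1⟩
        · exact ⟨h, hj2⟩
      have h1 := lowerBound hmod (X F) (hX F) j d 1 (by omega) x⁻¹ y⁻¹ C hxinv hxinv2 hyinv hyinv2
        (hC F hodd j hj0 hcase)
      have hexp : ((d : ℝ) + 1) / 2 - ((d : ℝ) - (1 : ℕ)) / x⁻¹ - (1 : ℕ) / y⁻¹ = δ := by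
        rw [div_inv_eq_mul, div_inv_eq_mul, hδ]
        push_cast
        rw [hx]
        field_simp
        ring
      rw [hexp] at h1
      have h2 : (M : ℝ) ^ δ ≤ (Fintype.card F : ℝ) ^ δ :=
        Real.rpow_le_rpow (Nat.cast_nonneg _) (by exact_mod_cast hcard.le) hδ0.le
      have h3 : C ≤ |C| := le_abs_self C
      linarith
  refine ⟨fun X hX => ⟨?_, main X hX⟩, ?_⟩
  · intro hQ
    obtain ⟨p, r, hp, hr, _, _, hmem, hnot⟩ := main X hX 4 .one le_rfl (Or.inl ⟨rfl, by decide⟩)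
    exact hnot (hQ 4 (by norm_num) .one p r hp hr hmem)
  · intro F _ _ _ hF χ hχ j d k hk p r C hp1 hp2 hr1 hr2 h
    exact lowerBound hF χ hχ j d k hk p r C hp1 hp2 hr1 hr2 h

end Pool.Agent.Results.MP_3d9c98_an.SphereConjectureFalse
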